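import Pool.Agent.Helper65.Res.Loc
import Pool.Agent.Helper10.Res.B36

/-!
# Project RES (MP_d365ae_co): Theorem X

If for a maximum matching `N` all pair pieces `F - V(N - e - f)` are 2-resilient with matching
number two, then `|F| ≤ C(3s+2,3)`.  The input is the case `s = 2` of the theorem (`S2`), the bound
`A_ef ≤ 36` is `b36r`.
-/

namespace Res83

open Finset Res12

set_option linter.unusedSectionVars false

variable {V : Type} [Fintype V] [DecidableEq V]

/-- the edges of `F` whose set of blocks is `S` -/
def A (F N S : Finset (Finset V)) : ℕ := (F.filter (fun g => bl N g = S)).card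

theorem num_id (m : ℕ) : 10 * m + 36 * m.choose 2 + 27 * m.choose 3 = (3 * m + 2).choose 3 := by
  have h := choose_identity m
  rw [← h]
  have hsub : ∑ k ∈ range (m + 1), m.choose k • (if k = 1 then 10 else if k = 2 then 36 else
      if k = 3 then 27 else 0) =
      ∑ k ∈ range (m + 4), m.choose k • (if k = 1 then 10 else if k = 2 then 36 else
      if k = 3 then 27 else 0) := by
    apply Finset.sum_subset
    · intro k hk
      rw [mem_range] at hk ⊢
      omega
    · intro k _ hk
      rw [mem_range] at hk
      rw [Nat.choose_eq_zero_of_lt (by omega), zero_smul]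
  have hterm : ∀ k ∈ range (m + 4), m.choose k • (if k = 1 then 10 else if k = 2 then 36 else
      if k = 3 then 27 else 0) = (if 1 = k then m * 10 else 0) +
      (if 2 = k then m.choose 2 * 36 else 0) + (if 3 = k then m.choose 3 * 27 else 0) := by
    intro k _
    by_cases k1 : k = 1
    · subst k1
      simp
    · by_cases k2 : k = 2
      · subst k2
        simp
      · by_cases k3 : k = 3
        · subst k3
          simp
        · rw [if_neg k1, if_neg k2, if_neg k3, if_neg (Ne.symm k1), if_neg (Ne.symm k2),
            if_neg (Ne.symm k3), smul_zero, add_zero, add_zero]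
  rw [hsub, Finset.sum_congr rfl hterm, Finset.sum_add_distrib, Finset.sum_add_distrib,
    Finset.sum_ite_eq, Finset.sum_ite_eq, Finset.sum_ite_eq, if_pos (mem_range.2 (by omega)),
    if_pos (mem_range.2 (by omega)), if_pos (mem_range.2 (by omega))]
  ring

/-- The total number of edges by number of blocks. -/
theorem card_eq_levels {F N : Finset (Finset V)} (h3 : ∀ e ∈ F, e.card = 3)
    (hm : IsMatching N) (hcov : ∀ g ∈ F, (bl N g).Nonempty) :
    F.card = ∑ e ∈ N, A F N {e} + ∑ S ∈ N.powersetCard 2, A F N S +
      ∑ S ∈ N.powersetCard 3, A F N S := by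
  classical
  have h1 : F.card = ∑ S ∈ N.powerset, A F N S :=
    Finset.card_eq_sum_card_fiberwise (f := bl N) (t := N.powerset)
      (fun g _ => by simpa using bl_subset N g)
  have h2 : ∑ S ∈ N.powersetCard 1, A F N S = ∑ e ∈ N, A F N {e} := by
    rw [Finset.powersetCard_one, Finset.sum_map]
    rfl
  have hz : ∀ S, (S.card = 0 ∨ 4 ≤ S.card) → A F N S = 0 := by
    intro S hS
    unfold A
    rw [Finset.card_eq_zero, Finset.filter_eq_empty_iff]
    intro g hg hgS
    rcases hS with h | h
    · have := hcov g hg
      rw [hgS, Finset.card_eq_zero.1 h] at this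
      simp at this
    · have := card_bl_le hm (g := g)
      rw [hgS, h3 g hg] at this
      omega
  have h3' : ∑ S ∈ N.powerset, A F N S =
      ∑ S ∈ N.powersetCard 1 ∪ N.powersetCard 2 ∪ N.powersetCard 3, A F N S := by
    symm
    apply Finset.sum_subset
    · intro S hS
      simp only [mem_union, mem_powersetCard] at hS
      rw [mem_powerset]
      rcases hS with (h | h) | h <;> exact h.1
    · intro S hS hS'
      simp only [mem_union, mem_powersetCard, not_or, not_and] at hS'
      rw [mem_powerset] at hS
      apply hz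
      have a1 := hS'.1.1 hS
      have a2 := hS'.1.2 hS
      have a3 := hS'.2 hS
      omega
  have hd12 : Disjoint (N.powersetCard 1) (N.powersetCard 2) := by
    rw [Finset.disjoint_left]
    intro S h h'
    rw [mem_powersetCard] at h h'
    omega
  have hd3 : Disjoint (N.powersetCard 1 ∪ N.powersetCard 2) (N.powersetCard 3) := by
    rw [Finset.disjoint_left]
    intro S h h'
    rw [mem_union, mem_powersetCard, mem_powersetCard] at h
    rw [mem_powersetCard] at h'
    omega
  rw [h1, h3', Finset.sum_union hd3, Finset.sum_union hd12, h2]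

theorem sum_three_le {F N : Finset (Finset V)} (h3 : ∀ e ∈ F, e.card = 3) (hN : N ⊆ F)
    (hm : IsMatching N) : ∑ S ∈ N.powersetCard 3, A F N S ≤ 27 * N.card.choose 3 := by
  classical
  refine (Finset.sum_le_card_nsmul _ _ 27 fun S hS => ?_).trans ?_
  · rw [mem_powersetCard] at hS
    exact card_three h3 (fun e he => h3 e (hN he)) hm hS.1 hS.2
  · rw [card_powersetCard, smul_eq_mul, mul_comm]

/-- The pairs containing `e0`. -/
theorem sum_pairs_insert {F N N' : Finset (Finset V)} {e0 : Finset V} (he : e0 ∉ N')
    (hN : N = insert e0 N') (f : Finset (Finset V) → ℕ) :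
    ∑ S ∈ N.powersetCard 2, f S =
      ∑ S ∈ N'.powersetCard 2, f S + ∑ g ∈ N', f {e0, g} := by
  classical
  subst hN
  rw [Finset.powersetCard_succ_insert he]
  rw [Finset.sum_union]
  · congr 1
    rw [Finset.sum_image]
    · rw [Finset.powersetCard_one, Finset.sum_map]
      rfl
    · intro S hS S' hS' h
      have h1 : ∀ T ∈ N'.powersetCard 1, e0 ∉ T := by
        intro T hT h
        exact he ((mem_powersetCard.1 hT).1 h)
      have h2 := congrArg (fun T => T.erase e0) h
      change (insert e0 S).erase e0 = (insert e0 S').erase e0 at h2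
      rwa [Finset.erase_insert (h1 S hS), Finset.erase_insert (h1 S' hS')] at h2
  · rw [Finset.disjoint_left]
    intro S hS hS'
    rw [mem_image] at hS'
    obtain ⟨T, _, rfl⟩ := hS'
    exact he ((mem_powersetCard.1 hS).1 (mem_insert_self _ _))

/-- The counting core of Theorem X. -/
theorem countX {F N : Finset (Finset V)} (h3 : ∀ e ∈ F, e.card = 3) (hN : N ⊆ F)
    (hm : IsMatching N) (hcov : ∀ g ∈ F, (bl N g).Nonempty) (hs : 2 ≤ N.card)
    (h36 : ∀ S ⊆ N, S.card = 2 → A F N S ≤ 36)
    (h56 : ∀ e ∈ N, ∀ f ∈ N, e ≠ f → A F N {e} + A F N {f} + A F N {e, f} ≤ 56) :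
    F.card ≤ (3 * N.card + 2).choose 3 := by
  classical
  rw [card_eq_levels h3 hm hcov, ← num_id]
  have hthree := sum_three_le h3 hN hm
  have h12 : ∑ e ∈ N, A F N {e} + ∑ S ∈ N.powersetCard 2, A F N S ≤
      10 * N.card + 36 * N.card.choose 2 := by
    by_cases hall : ∀ e ∈ N, A F N {e} ≤ 10
    · have h1 : ∑ e ∈ N, A F N {e} ≤ N.card • 10 := Finset.sum_le_card_nsmul _ _ 10 hall
      have h2 : ∑ S ∈ N.powersetCard 2, A F N S ≤ (N.powersetCard 2).card • 36 :=
        Finset.sum_le_card_nsmul _ _ 36 fun S hS =>
          h36 S (mem_powersetCard.1 hS).1 (mem_powersetCard.1 hS).2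
      rw [card_powersetCard] at h2
      simp only [smul_eq_mul] at h1 h2
      omega
    · push Not at hall
      obtain ⟨e0, he0, hA⟩ := hall
      have hne : e0 ∉ N.erase e0 := Finset.notMem_erase _ _
      have hins : N = insert e0 (N.erase e0) := (Finset.insert_erase he0).symm
      have hp := sum_pairs_insert (F := F) hne hins (fun S => A F N S)
      have hsum1 : ∑ e ∈ N, A F N {e} = A F N {e0} + ∑ e ∈ N.erase e0, A F N {e} :=
        (Finset.add_sum_erase N (fun e => A F N {e}) he0).symm
      have hk : (N.erase e0).card = N.card - 1 := Finset.card_erase_of_mem he0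
      have h2 : ∑ S ∈ (N.erase e0).powersetCard 2, A F N S ≤
          ((N.erase e0).powersetCard 2).card • 36 :=
        Finset.sum_le_card_nsmul _ _ 36 fun S hS =>
          h36 S ((mem_powersetCard.1 hS).1.trans (Finset.erase_subset _ _))
            (mem_powersetCard.1 hS).2
      rw [card_powersetCard] at h2
      have h5 : ∑ f ∈ N.erase e0, (A F N {e0} + A F N {f} + A F N {e0, f}) ≤
          (N.erase e0).card • 56 :=
        Finset.sum_le_card_nsmul _ _ 56 fun f hf =>
          h56 e0 he0 f (Finset.mem_of_mem_erase hf) (Finset.ne_of_mem_erase hf).symm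
      rw [Finset.sum_add_distrib, Finset.sum_add_distrib, Finset.sum_const] at h5
      simp only [smul_eq_mul] at h2 h5
      rw [hk] at h2 h5
      obtain ⟨k, hk'⟩ : ∃ k, N.card = k + 2 := ⟨N.card - 2, by omega⟩
      rw [hk'] at h2 h5 ⊢
      have hk1 : k + 2 - 1 = k + 1 := by omega
      rw [hk1] at h2 h5
      have hch : (k + 2).choose 2 = (k + 1) + (k + 1).choose 2 := by
        rw [Nat.choose_succ_succ' (k + 1) 1, Nat.choose_one_right]
      rw [hp, hsum1, hch]
      have h6 : k * 10 ≤ k * A F N {e0} := Nat.mul_le_mul_left k (by omega)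
      have h7 : (k + 1) * A F N {e0} = k * A F N {e0} + A F N {e0} := by ring
      rw [h7] at h5
      nlinarith [h2, h5, h6]
  omega

/-- Theorem X (helper80): all pair pieces of a maximum matching are 2-resilient. -/
theorem theoremX (S2 : ∀ H : Finset (Finset V), Hyp H 2 → H.card ≤ 56)
    {F N : Finset (Finset V)} {s : ℕ} (h : Hyp F s) (hs : 2 ≤ s) (hN : N ⊆ F)
    (hm : IsMatching N) (hc : N.card = s)
    (hpair : ∀ e ∈ N, ∀ f ∈ N, e ≠ f → Hyp (av F (VS (N \ {e, f}))) 2) :
    F.card ≤ (3 * s + 2).choose 3 := by
  classical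
  subst hc
  have h3 := h.three
  have hcov : ∀ g ∈ F, (bl N g).Nonempty := by
    intro g hg
    by_contra hcon
    rw [Finset.not_nonempty_iff_eq_empty] at hcon
    have hdis : ∀ b ∈ N, Disjoint b g := by
      intro b hb
      by_contra hd
      have : b ∈ bl N g := mem_bl.2 ⟨hb, hd⟩
      rw [hcon] at this
      simp at this
    have hgN : g ∉ N := by
      intro hgN
      have h1 := hdis g hgN
      rw [disjoint_self] at h1
      have h2 := h3 g hg
      rw [h1] at h2
      simp at h2
    have h1 := h.le (insert g N) (Finset.insert_subset hg hN) (by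
      intro a ha b hb hab
      rw [mem_insert] at ha hb
      rcases ha with rfl | ha <;> rcases hb with rfl | hb
      · exact absurd rfl hab
      · exact (hdis b hb).symm
      · exact hdis a ha
      · exact hm a ha b hb hab)
    rw [card_insert_of_notMem hgN] at h1
    omega
  have hmem : ∀ S ⊆ N, ∀ b ∈ S, b ∈ av F (VS (N \ S)) := by
    intro S hS b hb
    rw [mem_av]
    refine ⟨hN (hS hb), ?_⟩
    rw [Finset.disjoint_left]
    intro v hv hv'
    obtain ⟨b', hb', hvb'⟩ := mem_VS.1 hv'
    rw [mem_sdiff] at hb'
    have hne : b ≠ b' := by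
      rintro rfl
      exact hb'.2 hb
    exact Finset.disjoint_left.1 (hm b (hS hb) b' hb'.1 hne) hv hvb'
  refine countX h3 hN hm hcov hs ?_ ?_
  · intro S hS hc
    obtain ⟨e, f, hef, rfl⟩ := Finset.card_eq_two.1 hc
    have heN : e ∈ N := hS (by simp)
    have hfN : f ∈ N := hS (by simp)
    refine le_trans (card_le_card ?_) (b36r (hpair e heN f hfN hef)
      (hmem {e, f} hS e (by simp)) (hmem {e, f} hS f (by simp)) (hm e heN f hfN hef))
    intro g hg
    rw [mem_filter] at hg ⊢
    refine ⟨mem_av.2 ⟨hg.1, disjoint_VS_sdiff hg.2.le⟩, ?_, ?_⟩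
    · have : e ∈ bl N g := by rw [hg.2]; simp
      intro hd
      exact (mem_bl.1 this).2 hd.symm
    · have : f ∈ bl N g := by rw [hg.2]; simp
      intro hd
      exact (mem_bl.1 this).2 hd.symm
  · intro e he f hf hef
    refine le_trans ?_ (S2 _ (hpair e he f hf hef))
    unfold A
    have hne1 : ({e} : Finset (Finset V)) ≠ {f} := by
      intro h
      exact hef (Finset.singleton_injective h)
    have hne2 : ({e} : Finset (Finset V)) ≠ {e, f} := by
      intro h
      have : f ∈ ({e} : Finset (Finset V)) := by rw [h]; simp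
      exact hef (mem_singleton.1 this).symm
    have hne3 : ({f} : Finset (Finset V)) ≠ {e, f} := by
      intro h
      have : e ∈ ({f} : Finset (Finset V)) := by rw [h]; simp
      exact hef (mem_singleton.1 this)
    rw [← card_union_of_disjoint, ← card_union_of_disjoint]
    · refine card_le_card ?_
      intro g hg
      simp only [mem_union, mem_filter] at hg
      rcases hg with (hg | hg) | hg
      · exact mem_av.2 ⟨hg.1, disjoint_VS_sdiff (by rw [hg.2]; simp)⟩
      · exact mem_av.2 ⟨hg.1, disjoint_VS_sdiff (by rw [hg.2]; simp)⟩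
      · exact mem_av.2 ⟨hg.1, disjoint_VS_sdiff (by rw [hg.2])⟩
    · rw [Finset.disjoint_left]
      intro g hg hg'
      simp only [mem_union, mem_filter] at hg hg'
      rcases hg with hg | hg
      · exact hne2 (hg.2.symm.trans hg'.2)
      · exact hne3 (hg.2.symm.trans hg'.2)
    · rw [Finset.disjoint_left]
      intro g hg hg'
      simp only [mem_filter] at hg hg'
      exact hne1 (hg.2.symm.trans hg'.2)

/-- Every edge meets a block of a maximum matching. -/
theorem cover_of_max {F N : Finset (Finset V)} {s : ℕ} (h3 : ∀ e ∈ F, e.card = 3)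
    (hle : ∀ P ⊆ F, IsMatching P → P.card ≤ s) (hN : N ⊆ F)
    (hm : IsMatching N) (hc : N.card = s) : ∀ g ∈ F, (bl N g).Nonempty := by
  classical
  intro g hg
  by_contra hcon
  rw [Finset.not_nonempty_iff_eq_empty] at hcon
  have hdis : ∀ b ∈ N, Disjoint b g := by
    intro b hb
    by_contra hd
    have : b ∈ bl N g := mem_bl.2 ⟨hb, hd⟩
    rw [hcon] at this
    simp at this
  have hgN : g ∉ N := by
    intro hgN
    have h1 := hdis g hgN
    rw [disjoint_self] at h1
    have h2 := h3 g hg
    rw [h1] at h2
    simp at h2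
  have h1 := hle (insert g N) (Finset.insert_subset hg hN) (by
    intro a ha b hb hab
    rw [mem_insert] at ha hb
    rcases ha with rfl | ha <;> rcases hb with rfl | hb
    · exact absurd rfl hab
    · exact (hdis b hb).symm
    · exact hdis a ha
    · exact hm a ha b hb hab)
  rw [card_insert_of_notMem hgN] at h1
  omega

/-- The matching number of a piece of a maximum matching. -/
theorem nu_piece_le {F N S : Finset (Finset V)} {s : ℕ} (h : Hyp F s) (hN : N ⊆ F)
    (hm : IsMatching N) (hc : N.card = s) (hS : S ⊆ N) : nu (av F (VS (N \ S))) ≤ S.card := by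
  classical
  refine nu_le_of fun P hP hPm => ?_
  have hdis : ∀ g ∈ P, ∀ b ∈ N \ S, Disjoint g b := by
    intro g hg b hb
    exact (mem_av.1 (hP hg)).2.mono_right (subset_VS hb)
  have hne : Disjoint P (N \ S) := by
    rw [Finset.disjoint_left]
    intro g hg hg'
    have h1 := hdis g hg g hg'
    rw [disjoint_self] at h1
    have h2 := h.three g (av_subset _ _ (hP hg))
    rw [h1] at h2
    simp at h2
  have h1 := h.le (P ∪ (N \ S)) (Finset.union_subset (hP.trans (av_subset _ _))
    (Finset.sdiff_subset.trans hN)) (by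
    intro a ha b hb hab
    rw [mem_union] at ha hb
    rcases ha with ha | ha <;> rcases hb with hb | hb
    · exact hPm a ha b hb hab
    · exact hdis a ha b hb
    · exact (hdis b hb a ha).symm
    · exact hm a (Finset.sdiff_subset ha) b (Finset.sdiff_subset hb) hab)
  rw [card_union_of_disjoint hne, card_sdiff_of_subset hS] at h1
  have := card_le_card hS
  omega

/-- Theorem X when no set of at most `3s-4` vertices lowers the matching number below two
(`D ≤ 1` and no optimal set except covers). -/
theorem theoremX_prime (S2 : ∀ H : Finset (Finset V), Hyp H 2 → H.card ≤ 56)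
    {F : Finset (Finset V)} {s : ℕ} (h : Hyp F s) (hs : 2 ≤ s)
    (hX : ∀ X : Finset V, X.card + 4 ≤ 3 * s → 2 ≤ nu (av F X)) :
    F.card ≤ (3 * s + 2).choose 3 := by
  classical
  by_cases hne : Nonempty V
  · obtain ⟨v⟩ := hne
    obtain ⟨N, hN, hm, hc, -⟩ := h.avoid v v
    refine theoremX S2 h hs hN hm hc ?_
    intro e he f hf hef
    have hS : ({e, f} : Finset (Finset V)) ⊆ N := by
      intro b hb
      simp only [mem_insert, mem_singleton] at hb
      rcases hb with rfl | rfl <;> assumption
    have hS2 : ({e, f} : Finset (Finset V)).card = 2 := Finset.card_pair hef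
    have hle : nu (av F (VS (N \ {e, f}))) ≤ 2 := by
      have := nu_piece_le h hN hm hc hS
      rwa [hS2] at this
    have hVS := card_VS_sdiff hm (fun b hb => h.three b (hN hb)) hS
    rw [hS2, hc] at hVS
    have key : ∀ a b : V, 2 ≤ nu (av (av F (VS (N \ {e, f}))) {a, b}) := by
      intro a b
      rw [av_av]
      apply hX
      have h1 : (VS (N \ {e, f}) ∪ {a, b}).card ≤ (VS (N \ {e, f})).card + 2 :=
        (card_union_le _ _).trans (Nat.add_le_add_left card_le_two _)
      omega
    have h2 : nu (av F (VS (N \ {e, f}))) = 2 :=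
      le_antisymm hle ((key v v).trans (nu_mono (av_subset _ _)))
    have h3 : Hyp (av F (VS (N \ {e, f}))) (nu (av F (VS (N \ {e, f})))) :=
      hyp_of_nu (fun g hg => h.three g (av_subset _ _ hg)) fun a b => by
        rw [h2]
        exact key a b
    rwa [h2] at h3
  · have : F.card = 0 := by
      rw [Finset.card_eq_zero, Finset.eq_empty_iff_forall_notMem]
      intro g hg
      have h1 := h.three g hg
      have h2 : g = ∅ := by
        rw [Finset.eq_empty_iff_forall_notMem]
        intro v _
        exact hne ⟨v⟩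
      rw [h2] at h1
      simp at h1
    omega

/-- The cyclic form (helper89): only `A_e + A_ef ≤ 46` is needed when `s ≥ 3`. -/
theorem countX' {F N : Finset (Finset V)} (h3 : ∀ e ∈ F, e.card = 3) (hN : N ⊆ F)
    (hm : IsMatching N) (hcov : ∀ g ∈ F, (bl N g).Nonempty) (hs : 3 ≤ N.card)
    (h36 : ∀ S ⊆ N, S.card = 2 → A F N S ≤ 36)
    (h46 : ∀ e ∈ N, ∀ f ∈ N, e ≠ f → A F N {e} + A F N {e, f} ≤ 46) :
    F.card ≤ (3 * N.card + 2).choose 3 := by
  classical
  rw [card_eq_levels h3 hm hcov, ← num_id]
  have hthree := sum_three_le h3 hN hm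
  obtain ⟨m, hmc⟩ : ∃ m, N.card = m + 3 := ⟨N.card - 3, by omega⟩
  obtain ⟨φ⟩ : Nonempty (Fin (m + 3) ≃ N) := ⟨(Finset.equivFinOfCardEq hmc).symm⟩
  -- the pairs of neighbours on the cycle
  let c : Fin (m + 3) → Finset (Finset V) := fun i => {(φ i : Finset V), (φ (i + 1) : Finset V)}
  have hone : ∀ i : Fin (m + 3), i ≠ i + 1 := by
    intro i h
    have h1 : (1 : Fin (m + 3)) = 0 := by
      have := congrArg (fun x => x - i) h
      simpa using this.symm
    exact absurd h1 (by simp)
  have htwo : (2 : Fin (m + 3)) ≠ 0 := by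
    intro h
    have h1 := congrArg Fin.val h
    have h2 : ((2 : Fin (m + 3)) : ℕ) = 2 := Nat.mod_eq_of_lt (show 2 < m + 3 by omega)
    rw [h2] at h1
    simp at h1
  have hφ : ∀ i j : Fin (m + 3), (φ i : Finset V) = φ j → i = j := fun i j h =>
    φ.injective (Subtype.ext h)
  have hcinj : Function.Injective c := by
    intro i j h
    have h1 : (φ i : Finset V) ∈ c j := by
      rw [← h]
      simp [c]
    have h2 : (φ (i + 1) : Finset V) ∈ c j := by
      rw [← h]
      simp [c]
    simp only [c, mem_insert, mem_singleton] at h1 h2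
    rcases h1 with h1 | h1
    · exact hφ _ _ h1
    · exfalso
      rcases h2 with h2 | h2
      · have e1 := hφ _ _ h1
        have e2 := hφ _ _ h2
        apply htwo
        have h3 : j + 2 = j := by
          calc j + 2 = j + 1 + 1 := by
                  rw [add_assoc]
                  congr 1
            _ = i + 1 := by rw [← e1]
            _ = j := e2
        exact left_eq_add.1 h3.symm
      · have e1 := hφ _ _ h1
        have e2 := hφ _ _ h2
        rw [← e2] at e1
        exact hone i e1
  have hcmem : ∀ i, c i ∈ N.powersetCard 2 := by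
    intro i
    rw [mem_powersetCard]
    refine ⟨?_, ?_⟩
    · intro b hb
      simp only [c, mem_insert, mem_singleton] at hb
      rcases hb with rfl | rfl
      · exact (φ i).2
      · exact (φ (i + 1)).2
    · exact Finset.card_pair fun h => hone i (hφ _ _ h)
  have h1 : ∑ e ∈ N, A F N {e} = ∑ i : Fin (m + 3), A F N {(φ i : Finset V)} := by
    rw [← Finset.sum_coe_sort N (fun e => A F N {e})]
    exact (φ.sum_comp (fun e : N => A F N {(e : Finset V)})).symm
  have h2 : ∑ S ∈ univ.image c, A F N S = ∑ i : Fin (m + 3), A F N (c i) :=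
    Finset.sum_image fun i _ j _ h => hcinj h
  have himg : univ.image c ⊆ N.powersetCard 2 := by
    intro S hS
    rw [mem_image] at hS
    obtain ⟨i, _, rfl⟩ := hS
    exact hcmem i
  have h4 : ∑ S ∈ N.powersetCard 2, A F N S =
      ∑ S ∈ N.powersetCard 2 \ univ.image c, A F N S + ∑ S ∈ univ.image c, A F N S :=
    (Finset.sum_sdiff himg).symm
  have h5 : ∑ S ∈ N.powersetCard 2 \ univ.image c, A F N S ≤
      (N.powersetCard 2 \ univ.image c).card • 36 := by
    refine Finset.sum_le_card_nsmul _ _ 36 fun S hS => ?_
    have := (mem_sdiff.1 hS).1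
    rw [mem_powersetCard] at this
    exact h36 S this.1 this.2
  have h6 : (univ.image c).card = m + 3 := by
    rw [Finset.card_image_of_injective _ hcinj, card_univ, Fintype.card_fin]
  rw [card_sdiff_of_subset himg, card_powersetCard, h6, smul_eq_mul] at h5
  have h7 : ∑ i : Fin (m + 3), (A F N {(φ i : Finset V)} + A F N (c i)) ≤ (m + 3) * 46 := by
    refine (Finset.sum_le_card_nsmul _ _ 46 fun i _ => ?_).trans ?_
    · exact h46 _ (φ i).2 _ (φ (i + 1)).2 fun h => hone i (hφ _ _ h)
    · rw [card_univ, Fintype.card_fin, smul_eq_mul]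
  rw [Finset.sum_add_distrib] at h7
  have h8 : m + 3 ≤ N.card.choose 2 := by
    have := card_le_card himg
    rwa [h6, card_powersetCard] at this
  rw [h1, h4, h2, hmc]
  rw [hmc] at h5 h8 hthree
  omega

end Res83
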